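import Mathlib

/-!
# Converse of the stepping-up lemma (order-type form), in ZFC for `κ⁺` and under GCH for `2^κ`
-/

open Cardinal Ordinal Set

universe u

namespace Pool.Agent.Results.MP_2e9b9b_lc.OrdinalForm

/-- The ordinary partition relation `κ → (η_k; k < γ)^m`: for every colouring `c` of the
`m`-element subsets of the initial ordinal `κ` with `γ` colours there are a colour `k` and a set
`H ⊆ κ` of order type `η_k` all of whose `m`-element subsets have colour `k`. -/
def Arrow (κ γ : Cardinal.{u}) (η : γ.ord.ToType → Ordinal.{u}) (m : ℕ) : Prop :=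
  ∀ c : {a : Finset κ.ord.ToType // a.card = m} → γ.ord.ToType,
    ∃ (k : γ.ord.ToType) (H : Set κ.ord.ToType),
      Ordinal.type (fun x y : H => x < y) = η k ∧
      ∀ a : {a : Finset κ.ord.ToType // a.card = m}, (↑a.1 : Set κ.ord.ToType) ⊆ H → c a = k

/-- The generalized continuum hypothesis. -/
def GCH : Prop := ∀ c : Cardinal.{u}, ℵ₀ ≤ c → (2 : Cardinal.{u}) ^ c = Order.succ c

/-- a set of size at least the cardinal `μ` in a well-order contains a set of order type `μ.ord` -/
lemma exists_subset_type {A : Type u} [LinearOrder A] [WellFoundedLT A] (S : Set A)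
    (μ : Cardinal.{u}) (h : μ ≤ #S) :
    ∃ T : Set A, T ⊆ S ∧ Ordinal.type (fun x y : T => x < y) = μ.ord := by
  have h1 : μ.ord ≤ Ordinal.type (fun x y : S => x < y) := by
    rw [Cardinal.ord_le]
    simpa using h
  have h2 : Ordinal.type (fun x y : μ.ord.ToType => x < y) = μ.ord := Ordinal.type_toType _
  obtain ⟨e⟩ := (Ordinal.type_le_iff'.1 (h2.le.trans h1))
  refine ⟨Set.range (fun x => (e x).1), ?_, ?_⟩
  · rintro _ ⟨x, rfl⟩
    exact (e x).2
  · refine Eq.trans ?_ h2
    symm
    apply Quotient.sound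
    refine ⟨⟨Equiv.ofInjective (fun x => (e x).1) (fun x y hxy => e.injective (Subtype.ext hxy)),
      ?_⟩⟩
    intro a b
    exact e.map_rel_iff

/-- a set of order type `μ.ord + 1` consists of a set of size `μ` and a point above it -/
lemma exists_top {A : Type u} [LinearOrder A] [WellFoundedLT A] (H : Set A) (μ : Cardinal.{u})
    (h : Ordinal.type (fun x y : H => x < y) = Order.succ μ.ord) :
    ∃ (b : A) (g : μ.ord.ToType → A), b ∈ H ∧ Function.Injective g ∧ ∀ x, g x ∈ H ∧ g x < b := by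
  have h2 : Ordinal.type (fun x y : H => x < y) =
      Ordinal.type (Sum.Lex (fun x y : μ.ord.ToType => x < y)
        (emptyRelation : PUnit.{u + 1} → PUnit.{u + 1} → Prop)) := by
    rw [h, Ordinal.type_sum_lex, Ordinal.type_toType, Ordinal.type_pUnit]
    rfl
  obtain ⟨ψ⟩ := Quotient.exact h2
  refine ⟨(ψ.symm (Sum.inr PUnit.unit)).1, fun x => (ψ.symm (Sum.inl x)).1,
    (ψ.symm (Sum.inr PUnit.unit)).2, ?_, ?_⟩
  · intro x y hxy
    exact Sum.inl_injective (ψ.symm.injective (Subtype.ext hxy))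
  · intro x
    refine ⟨(ψ.symm (Sum.inl x)).2, ?_⟩
    have := ψ.symm.map_rel_iff (a := Sum.inl x) (b := Sum.inr PUnit.unit)
    exact this.2 (Sum.Lex.sep _ _)

/-- **Stepping up a negative relation from `κ` to `κ⁺`.** -/
theorem step (κ γ : Cardinal.{u}) (n : ℕ) (η : γ.ord.ToType → Cardinal.{u}) (hκ : ℵ₀ ≤ κ)
    (h : ¬ Arrow κ γ (fun k => (η k).ord) n) :
    ¬ Arrow (Order.succ κ) γ (fun k => Order.succ (η k).ord) (n + 1) := by
  classical
  unfold Arrow at h
  push Not at h
  obtain ⟨c, hc⟩ := h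
  have hinit : ∀ b : (Order.succ κ).ord.ToType, ∃ e : (Order.succ κ).ord.ToType → κ.ord.ToType,
      Set.InjOn e (Set.Iio b) := by
    intro b
    have h1 : #(Set.Iio b) ≤ #(κ.ord.ToType) := by
      rw [Cardinal.mk_ord_toType]
      have h0 := Cardinal.mk_Iio_toType_ord_lt b
      exact Order.lt_succ_iff.1 h0
    obtain ⟨f⟩ := h1
    have hne : Nonempty κ.ord.ToType := by
      rw [← Cardinal.mk_ne_zero_iff, Cardinal.mk_ord_toType]
      exact (Cardinal.aleph0_pos.trans_le hκ).ne'
    refine ⟨fun x => if hx : x < b then f ⟨x, hx⟩ else Classical.choice hne, ?_⟩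
    intro x hx y hy hxy
    simp only [dif_pos (show x < b from hx), dif_pos (show y < b from hy)] at hxy
    exact congrArg Subtype.val (f.injective hxy)
  choose e he using hinit
  intro hA
  have hcard : ∀ s : {a : Finset (Order.succ κ).ord.ToType // a.card = n + 1},
      ((s.1.erase (s.1.max' (Finset.card_pos.1 (by rw [s.2]; omega)))).image
        (e (s.1.max' (Finset.card_pos.1 (by rw [s.2]; omega))))).card = n := by
    intro s
    rw [Finset.card_image_of_injOn, Finset.card_erase_of_mem (Finset.max'_mem _ _), s.2]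
    · rfl
    · refine (he _).mono ?_
      intro x hx
      rw [Finset.mem_coe, Finset.mem_erase] at hx
      exact lt_of_le_of_ne (Finset.le_max' _ _ hx.2) hx.1
  obtain ⟨k, H, hH, hhom⟩ := hA (fun s => c ⟨_, hcard s⟩)
  obtain ⟨b, g, hb, hg, hgb⟩ := exists_top H (η k) hH
  have hinj : Function.Injective (fun x => e b (g x)) := by
    intro x y hxy
    exact hg (he b (hgb x).2 (hgb y).2 hxy)
  obtain ⟨T, hT, hTtype⟩ := exists_subset_type (Set.range (fun x => e b (g x))) (η k) (by
    rw [Cardinal.mk_range_eq _ hinj, Cardinal.mk_ord_toType])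
  obtain ⟨a, ha, hac⟩ := hc k T hTtype
  apply hac
  have ha2 : (↑a.1 : Set κ.ord.ToType) ⊆ (fun x => e b (g x)) '' Set.univ := by
    rw [Set.image_univ]
    exact ha.trans hT
  obtain ⟨t, -, ht⟩ := Finset.subset_set_image_iff.1 ha2
  have htcard : t.card = n := by
    rw [← a.2, ← ht, Finset.card_image_of_injective _ hinj]
  have hbt : b ∉ t.image g := by
    intro hmem
    obtain ⟨x, -, hx⟩ := Finset.mem_image.1 hmem
    exact absurd (hgb x).2 (by rw [hx]; exact lt_irrefl b)
  have hscard : (insert b (t.image g)).card = n + 1 := by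
    rw [Finset.card_insert_of_notMem hbt, Finset.card_image_of_injective _ hg, htcard]
  have hmax : ∀ hne : (insert b (t.image g)).Nonempty, (insert b (t.image g)).max' hne = b := by
    intro hne
    apply le_antisymm
    · refine Finset.max'_le _ _ _ ?_
      intro y hy
      rcases Finset.mem_insert.1 hy with rfl | hy
      · exact le_rfl
      · obtain ⟨x, -, rfl⟩ := Finset.mem_image.1 hy
        exact (hgb x).2.le
    · exact Finset.le_max' _ _ (Finset.mem_insert_self _ _)
  have h1 := hhom ⟨insert b (t.image g), hscard⟩ (by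
    intro y hy
    rcases Finset.mem_insert.1 (Finset.mem_coe.1 hy) with rfl | hy
    · exact hb
    · obtain ⟨x, -, rfl⟩ := Finset.mem_image.1 hy
      exact (hgb x).1)
  rw [← h1]
  congr 1
  apply Subtype.ext
  show a.1 = _
  simp only [hmax]
  rw [Finset.erase_insert hbt, Finset.image_image, ← ht]
  rfl

/-- **Converse of the stepping-up lemma, order-type form.**
(1) In ZFC, for every infinite cardinal `κ`, every cardinal `γ`, every `n` and all cardinals
`η_k` (`k < γ`): if `κ ↛ (η_k; k < γ)^n` then `κ⁺ ↛ (η_k ∔ 1; k < γ)^(n+1)`.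
(2) Under GCH, for `κ` infinite, `n ≥ 2`, `2 ≤ γ < κ` and cardinals `n < η_k ≤ κ`:
if `κ ↛ (η_k; k < γ)^n` then `2^κ ↛ (η_k ∔ 1; k < γ)^(n+1)`. -/
theorem result :
    (∀ (κ γ : Cardinal.{u}) (n : ℕ) (η : γ.ord.ToType → Cardinal.{u}), ℵ₀ ≤ κ →
      ¬ Arrow κ γ (fun k => (η k).ord) n →
      ¬ Arrow (Order.succ κ) γ (fun k => Order.succ (η k).ord) (n + 1)) ∧
    (GCH.{u} → ∀ (κ γ : Cardinal.{u}) (n : ℕ) (η : γ.ord.ToType → Cardinal.{u}), ℵ₀ ≤ κ →
      2 ≤ n → 2 ≤ γ → γ < κ → (∀ k, (n : Cardinal.{u}) < η k ∧ η k ≤ κ) →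
      ¬ Arrow κ γ (fun k => (η k).ord) n →
      ¬ Arrow (2 ^ κ) γ (fun k => Order.succ (η k).ord) (n + 1)) := by
  refine ⟨step, ?_⟩
  intro gch κ γ n η hκ _ _ _ _ h
  rw [gch κ hκ]
  exact step κ γ n η hκ h

end Pool.Agent.Results.MP_2e9b9b_lc.OrdinalForm
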